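import Pool.Agent.H950Z.LrpDefs
import Pool.Agent.H950Z.LrpMain

namespace Pool.Agent.Results.MP_1905b6_pr.LogIsoNoPercolation

open Pool.Agent.H950Z.Lrp
open scoped NNReal

/-- There are a countable abelian group `G`, a generating measure `μ` and `c > 0` with
`|∂S| > c log |S|` for every finite nonempty `S`, such that for every intensity `lam` the random
graph `G_μ(lam)` almost surely has no infinite component. -/
theorem result : ∃ (G : Type) (_ : AddCommGroup G) (_ : Countable G) (μ : G → ℝ≥0) (c : ℝ),
    IsGenerating μ ∧ 0 < c ∧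
    (∀ S : Finset G, S.Nonempty → c * Real.log S.card < boundary μ S) ∧
    ∀ lam : ℝ≥0, edgeLaw μ lam {ω | HasInfiniteComponent ω} = 0 :=
  ⟨GG, inferInstance, inferInstance, mu, 1 / 16, mu_generating, by norm_num, iso, no_perc⟩

end Pool.Agent.Results.MP_1905b6_pr.LogIsoNoPercolation
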